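import Pool.Agent.helper62.LL.SpecG
import Pool.Agent.helper62.QU.All

open scoped MatrixGroups ContDiff Topology UpperHalfPlane Pointwise
open UpperHalfPlane MeasureTheory Filter Set

namespace Pool.Agent.LL

lemma LBM_disp (Γ : Subgroup SL(2, ℝ)) (hΓ : QU.SurfaceGroup Γ) :
    ∃ r : ℝ, 0 < r ∧ r ≤ 1 ∧ ∀ γ : Γ, γ ≠ 1 → ∀ z : ℍ, 2 * r ≤ dist (γ • z) z := by
  classical
  obtain ⟨K, hK, hcov⟩ := hΓ.cocompact
  have hK' : IsCompact (Metric.cthickening 1 K) := hK.cthickening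
  have hfin := hΓ.discrete _ hK'
  have hiso : ∀ (γ : Γ) (z w : ℍ), dist (γ • z) (γ • w) = dist z w := fun γ z w =>
    dist_smul (γ : SL(2, ℝ)) z w
  have hex : ∀ γ : Γ, ∃ e : ℝ, 0 < e ∧ (γ ≠ 1 → ∀ z ∈ K, e ≤ dist (γ • z) z) := by
    intro γ
    by_cases hγ : γ = 1
    · exact ⟨1, one_pos, fun h => absurd hγ h⟩
    rcases K.eq_empty_or_nonempty with hE | hN
    · exact ⟨1, one_pos, fun _ z hz => by rw [hE] at hz; exact absurd hz (Set.notMem_empty z)⟩
    have hc : Continuous (fun z : ℍ => dist (γ • z) z) := by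
      have h1 : Continuous (fun z : ℍ => γ • z) := (isometry_smul ℍ (γ : SL(2, ℝ))).continuous
      exact h1.dist continuous_id
    obtain ⟨z0, hz0, hmin⟩ := hK.exists_isMinOn hN hc.continuousOn
    refine ⟨dist (γ • z0) z0, ?_, fun _ z hz => hmin hz⟩
    rw [dist_pos]
    intro h
    exact hγ (hΓ.free γ z0 h)
  choose e he using hex
  have hall : ∀ T : Finset Γ, ∃ m : ℝ, 0 < m ∧ ∀ γ ∈ T, m ≤ e γ := by
    intro T
    induction T using Finset.induction_on with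
    | empty => exact ⟨1, one_pos, by simp⟩
    | insert a T ha ih =>
      obtain ⟨m, hm, h⟩ := ih
      refine ⟨min m (e a), lt_min hm (he a).1, fun γ hγ => ?_⟩
      rcases Finset.mem_insert.1 hγ with rfl | h1
      · exact min_le_right _ _
      · exact (min_le_left _ _).trans (h γ h1)
  obtain ⟨m, hm, hmT⟩ := hall hfin.toFinset
  refine ⟨min m 1 / 2, by positivity, by linarith [min_le_right m (1 : ℝ)], fun γ hγ z => ?_⟩
  obtain ⟨δ, hδ⟩ := hcov z
  have h1 : dist (γ • z) z = dist ((δ * γ * δ⁻¹) • (δ • z)) (δ • z) := by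
    have h2 : (δ * γ * δ⁻¹) • (δ • z) = δ • (γ • z) := by
      rw [smul_smul, smul_smul]; congr 1; group
    rw [h2, hiso]
  have hne : δ * γ * δ⁻¹ ≠ 1 := by
    intro h
    apply hγ
    have : γ = δ⁻¹ * (δ * γ * δ⁻¹) * δ := by group
    rw [this, h]; group
  rw [h1]
  set γ' : Γ := δ * γ * δ⁻¹ with hγ'
  set y : ℍ := δ • z with hy
  rcases lt_or_ge (dist (γ' • y) y) 1 with hlt | hge
  · have hmem : γ' ∈ hfin.toFinset := by
      rw [Set.Finite.mem_toFinset]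
      refine ⟨y, Metric.self_subset_cthickening K hδ, ?_⟩
      exact Metric.mem_cthickening_of_dist_le (γ' • y) y 1 K hδ hlt.le
    have h3 := (he γ').2 hne y hδ
    have h4 := hmT γ' hmem
    linarith [min_le_left m (1 : ℝ)]
  · linarith [min_le_right m (1 : ℝ)]

theorem LBM_proof (h1 : VBL_stmt) : LBM_stmt := by
  intro Γ F hΓ hF
  obtain ⟨hcount, hfd, -, -, -, -⟩ := QU.A_DOB Γ F hΓ hF
  have hinvM : SMulInvariantMeasure Γ ℍ (volume : Measure ℍ) := QU.INV_b Γ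
  obtain ⟨c, C, hc, hC, hball⟩ := h1
  obtain ⟨r, hr, hr1, hdisp⟩ := LBM_disp Γ hΓ
  have hset : ∀ (w : ℍ) (ρ : ℝ), {z | z ∈ F ∧ ∃ γ : Γ, γ • z ∈ Metric.ball w ρ} =
      ⋃ g : Γ, (g • Metric.ball w ρ ∩ F) := by
    intro w ρ
    ext z
    simp only [Set.mem_setOf_eq, Set.mem_iUnion, Set.mem_inter_iff]
    constructor
    · rintro ⟨hz, γ, hγ⟩
      refine ⟨γ⁻¹, ?_, hz⟩
      rw [Set.mem_smul_set_iff_inv_smul_mem, inv_inv]
      exact hγ
    · rintro ⟨g, hg, hz⟩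
      rw [Set.mem_smul_set_iff_inv_smul_mem] at hg
      exact ⟨hz, g⁻¹, hg⟩
  have hlow : ∀ (w : ℍ) (ρ : ℝ), 0 < ρ → ρ ≤ r →
      volume (Metric.ball w ρ) = volume {z | z ∈ F ∧ ∃ γ : Γ, γ • z ∈ Metric.ball w ρ} := by
    intro w ρ hρ hρr
    rw [hset, measure_iUnion, ← hfd.measure_eq_tsum]
    · intro g g' hgg
      rw [Function.onFun, Set.disjoint_left]
      rintro z ⟨hz, -⟩ ⟨hz', -⟩
      rw [Set.mem_smul_set_iff_inv_smul_mem, Metric.mem_ball] at hz hz'
      have hne : g'⁻¹ * g ≠ 1 := by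
        intro h
        exact hgg (inv_mul_eq_one.1 h).symm
      have h2 := hdisp (g'⁻¹ * g) hne (g⁻¹ • z)
      rw [smul_smul] at h2
      have h3 : g'⁻¹ * g * g⁻¹ = g'⁻¹ := by group
      rw [h3] at h2
      have h4 : dist (g'⁻¹ • z) (g⁻¹ • z) ≤ dist (g'⁻¹ • z) w + dist (g⁻¹ • z) w := dist_triangle_right _ _ _
      linarith
    · intro g
      refine MeasurableSet.inter ?_ hF.meas
      have ho : IsOpen (g • Metric.ball w ρ) := by
        have : g • Metric.ball w ρ = (fun z : ℍ => g⁻¹ • z) ⁻¹' Metric.ball w ρ := by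
          ext z
          rw [Set.mem_smul_set_iff_inv_smul_mem]; rfl
        rw [this]
        exact Metric.isOpen_ball.preimage (isometry_smul ℍ ((g⁻¹ : Γ) : SL(2, ℝ))).continuous
      exact ho.measurableSet
  refine ⟨c * r ^ 2, C, by positivity, hC, fun w ρ hρ hρ1 => ⟨?_, ?_⟩⟩
  · rcases le_total ρ r with hle | hle
    · rw [← hlow w ρ hρ hle]
      refine le_trans (ENNReal.ofReal_le_ofReal ?_) (hball w ρ hρ hρ1).1
      have : r ^ 2 ≤ 1 := pow_le_one₀ hr.le hr1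
      have h5 : 0 ≤ c * ρ ^ 2 := by positivity
      nlinarith
    · have h5 : volume {z | z ∈ F ∧ ∃ γ : Γ, γ • z ∈ Metric.ball w r} ≤
          volume {z | z ∈ F ∧ ∃ γ : Γ, γ • z ∈ Metric.ball w ρ} := by
        refine measure_mono ?_
        rintro z ⟨hz, γ, hγ⟩
        exact ⟨hz, γ, Metric.ball_subset_ball hle hγ⟩
      refine le_trans ?_ h5
      rw [← hlow w r hr le_rfl]
      refine le_trans (ENNReal.ofReal_le_ofReal ?_) (hball w r hr hr1).1
      have h6 : ρ ^ 2 ≤ 1 := pow_le_one₀ hρ.le hρ1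
      have h7 : 0 ≤ c * r ^ 2 := by positivity
      nlinarith
  · refine le_trans ?_ (hball w ρ hρ hρ1).2
    rw [hset, hfd.measure_eq_tsum (Metric.ball w ρ)]
    exact measure_iUnion_le _

end Pool.Agent.LL
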